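import Pool.Agent.H13.InOut

namespace Pool.Agent.Results.MP_76d2cf_co.Cex
open Pool.Agent.H13.InOut

theorem result : ∀ P H : Set (EuclideanSpace ℝ (Fin 2)),
    P = convexHull ℝ {!₂[-1, 0], !₂[3, 0], !₂[0, 1 / 2]} → H = {q | q 0 = 0} →
    ¬ P ⊆ H ∧ (H ∩ interior P).Nonempty ∧
    (∃ c cw, IsQP (cnt (interior P \ H)) c ∧ IsQP (cnt (interior P)) cw) ∧
    ∀ c cw, IsQP (cnt (interior P \ H)) c → IsQP (cnt (interior P)) cw →
      ∃ p0 p1 w0 w1 : ℕ, IsLeast {N | Per (c 0) N} p0 ∧ IsLeast {N | Per (c 1) N} p1 ∧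
        IsLeast {N | Per (cw 0) N} w0 ∧ IsLeast {N | Per (cw 1) N} w1 ∧ ¬ p1 * w0 ∣ p0 * w1 := by
  rintro P H rfl rfl
  have A := qA _ Eo
  have B := qB _ Ew
  refine ⟨fun h => ?_, ⟨!₂[0, 1 / 4], by simp, ?_⟩, ⟨_, _, A, B⟩, fin A B⟩
  · have := h (subset_convexHull ℝ _ (Set.mem_insert _ _))
    simp at this
  · rw [P_int]; simp; norm_num

end Pool.Agent.Results.MP_76d2cf_co.Cex
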